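import Pool.Agent.Run7.h509.Tp3

/-!
# Links in thickened surfaces whose twist regions have about the same size

Diagrams: `Pool.Agent.H891R2.Jones.Diagram` (`Diagram`: oriented diagrams with marked points; the arcs only say
which marked points are joined, so these are diagrams of links in thickened surfaces, that is, of virtual
links; `Diagram.IsClosed`; `D.fPoly`: the normalised bracket, all loops counting equally, so `D` has unit Jones
polynomial if and only if `D.fPoly = 1`) and `Pool.Agent.H891R2.MT.Defs` (`UDiagram`, `Orients D U`: `D` is `U` with
directions).  `FSpanLE s D` (in `Pool.Agent.H832R3.TW.E`): `f_D` is supported in an interval of length at most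
`4 s`; for instance `f_D = 1` and `s = 0`.

Templates: `Pool.Agent.H832R3.TW.Defs` (`Corner k`: the `4 k` corners of `k` boxes; a template is the list
`arcs` of the pairs of corners joined outside of the boxes; `twisted arcs n`: the diagram in which the box `e`
contains a row of `|n e|` crossings of the kind given by the sign of `n e`; `loops arcs S`: the number of
components if the boxes `e ∈ S` contain two vertical strands (along the row) and the other boxes two
horizontal ones (the box is cut)).

New definitions (`Pool.Agent.Run7.h509.Tp`, `Tp3`):

* `ClosedT arcs`: every corner is joined by an arc to exactly one other corner.  The surface (the cyclic order of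
  the arcs) is arbitrary.
* `pieces arcs X`: the number of connected pieces of the diagram in which the boxes outside `X` are cut and every
  box in `X` counts as one piece with its four corners.
* `ReducedT arcs Y`: the diagram remains connected if one or two of the boxes in `Y` are cut.  (A box which
  disconnects the diagram if it is cut is nugatory; two boxes which disconnect it can be united by a flype, if
  the diagram is drawn in the sphere.)
* `SpansT arcs Y`: `|Yᶜ| + pieces Yᶜ = loops ∅`; the boxes outside `Y`, as edges between the components of the
  state `∅` (all boxes cut), form a forest (always true for `Y = univ`).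
* `Balanced Y n X`: the conditions on the twist numbers written out in the theorem.

Proof: the coefficients of the expansion of the bracket in the boxes are, for an arbitrary template of this
kind, divisible by the power `loops ∅` of `δ = - A² - A⁻²`, and the lowest order terms at `δ = 0` belong to the
sets `Q` of boxes which span the dual of the cycle matroid of the graph with the components of the state `∅` as
vertices and the boxes as edges.  If the span is small then the exponents decompose into clusters which
cancel, and the sum of `∏_{e ∈ Q} (u e - 1)` over the spanning sets `Q` vanishes for all `u` which are constant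
on the clusters.  But for a simple matroid of rank `r` and weights in `[-2, 0)` it has the sign `(-1)^r`.
-/

set_option autoImplicit false

namespace Pool.Agent.Results.MP_7bc610_gt.BalancedVirtualTwists

open Finset Pool.Agent.H891R2.Jones Pool.Agent.H891R2.MT Pool.Agent.H832R3.TW Run7.h509.Tp

/-- Let `arcs` be a template on an arbitrary surface with `k` boxes, and let `Y` be a nonempty spanning set of boxes
which are reduced (for instance all boxes).  Let `K(n)`, `n ∈ ℤ^k`, be the diagrams with `|n e|` crossings in the box
`e`.  The normalised bracket of `K(n)` is not `1`, more precisely it is not supported in an interval of length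
`4 s`, in each of the following cases:

* there are real numbers `u e`, with `-1 ≤ u e < 1` for `e ∈ Y` and `u e = 1` for `e ∉ Y`, such that
  `∏_{e ∈ R} u e = ∏_{e ∈ R'} u e` for all sets `R`, `R'` of boxes with `|n(R) - n(R')| ≤ 4 k + s + 1`;
* there are a real number `M > ∑ e, |n e - M m e| + 4 k + s + 1` and integers `m e`, odd for `e ∈ Y` and even for
  `e ∉ Y`;
* `|n e| ∈ [M, M + C]` for `e ∈ Y`, with arbitrary signs, and `|n e| ≤ C` for `e ∉ Y`, where
  `M > k C + 4 k + s + 1`. -/
theorem result {k : ℕ} (arcs : List (Corner k × Corner k)) (ho : ClosedT arcs) (Y : Finset (Fin k))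
    (hY : Y.Nonempty) (hred : ReducedT arcs Y) (hsp : SpansT arcs Y) (s : ℕ) (n : Fin k → ℤ)
    (h : (∃ u : Fin k → ℝ, (∀ e ∈ Y, -1 ≤ u e ∧ u e < 1) ∧ (∀ e, e ∉ Y → u e = 1) ∧
        ∀ R R' : Finset (Fin k), |∑ e ∈ R, n e - ∑ e ∈ R', n e| ≤ 4 * k + s + 1 →
          ∏ e ∈ R, u e = ∏ e ∈ R', u e) ∨
      (∃ (M : ℝ) (m : Fin k → ℤ), (∀ e, Odd (m e) ↔ e ∈ Y) ∧
        ∑ e, |(n e : ℝ) - M * m e| + 4 * k + s + 1 < M) ∨
      (∃ M C : ℕ, k * C + 4 * k + s + 1 < M ∧ (∀ e ∈ Y, (M : ℤ) ≤ |n e| ∧ |n e| ≤ M + C) ∧
        ∀ e, e ∉ Y → |n e| ≤ C))
    (D : Diagram (Ribbon.Pt n)) (hD : Orients D (twisted arcs n)) (_ : D.IsClosed) :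
    D.fPoly ≠ 1 ∧ ¬ FSpanLE s D := by
  have hb : Balanced Y n (4 * k + s + 1) := by
    rcases h with h | ⟨M, m, hm, hM⟩ | ⟨M, C, hM, h1, h2⟩
    · exact Or.inl h
    · refine Or.inr (Or.inl ⟨M, m, hm, ?_⟩)
      push_cast
      linarith
    · refine Or.inr (Or.inr ⟨M, C, ?_, h1, h2⟩)
      have : ((k * C + 4 * k + s + 1 : ℕ) : ℤ) < M := by exact_mod_cast hM
      push_cast at this
      linarith
  have key := balancedT (Or.inl ho) hY hred hsp s n hb D hD
  exact ⟨fun h1 => key (one_span s h1), key⟩

end Pool.Agent.Results.MP_7bc610_gt.BalancedVirtualTwists
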